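import Mathlib
import Pool.Agent.Work.MP_104cea_lc.Kept.CubicBorderDc
import Pool.Agent.Work.MP_499dc6_lc.Abp.Main

/-!
# Algebraic branching programs for the permanent need cubically many vertices

An algebraic branching program with vertices `0, 1, ..., S - 1` (numbered along a topological
order) has an edge `u → v` for `u < v` labelled by an affine form `c0 u v + ∑ x_e c1 u v e` (the
label `0` means that there is no edge). It computes, for a source `s` and a sink `t`, the sum over
all directed paths from `s` to `t` of the product of the labels of the edges of the path.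
-/

namespace Pool.Agent.Work.MP_499dc6_lc.Kept.BranchingPrograms

open scoped PowerSeries

/-- An algebraic branching program over the field `K` in the variables `x_e`, `e : σ`, with the
vertices `0, 1, ..., S - 1`: the edge `u → v` (present only if `u < v`) is labelled by the affine
form `c0 u v + ∑ e, c1 u v e * x_e`. -/
structure ABP (K : Type) (σ : Type) (S : ℕ) where
  /-- the constant terms of the labels -/
  c0 : Fin S → Fin S → K
  /-- the coefficients of the variables in the labels -/
  c1 : Fin S → Fin S → σ → K

/-- The matrix of labels: the entry `(u, v)` is the label of the edge `u → v` if `u < v`, and `0`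
otherwise. -/
noncomputable def ABP.label {K : Type} [Field K] {σ : Type} [Fintype σ] {S : ℕ}
    (P : ABP K σ S) : Matrix (Fin S) (Fin S) (MvPolynomial σ K) :=
  Matrix.of fun u v =>
    if u < v then MvPolynomial.C (P.c0 u v) + ∑ e, MvPolynomial.C (P.c1 u v e) * MvPolynomial.X e
    else 0

/-- The polynomial computed between the vertices `s` and `t`: the sum over all directed paths from
`s` to `t` of the product of the labels along the path. (The paths with `l` edges contribute the
entry `(s, t)` of the `l`-th power of the matrix of labels, and every path has fewer than `S`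
edges.) -/
noncomputable def ABP.computed {K : Type} [Field K] {σ : Type} [Fintype σ] {S : ℕ}
    (P : ABP K σ S) (s t : Fin S) : MvPolynomial σ K :=
  ∑ l ∈ Finset.range S, (P.label ^ l) s t

/-- The number of vertices that have at least one outgoing edge with a non-constant label. -/
noncomputable def ABP.size {K : Type} [Field K] {σ : Type} {S : ℕ} (P : ABP K σ S) : ℕ :=
  {u : Fin S | ∃ v e, u < v ∧ P.c1 u v e ≠ 0}.ncard

/-- If an algebraic branching program over `k((ε))`, `k` a field of characteristic zero, computes
`perm_m + ε R` with `R` over `k[[ε]]`, then at least `m ^ 3 / (2 * 10 ^ 12) - 1` of its vertices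
have an outgoing edge with a non-constant label. -/
theorem result (k : Type) [Field k] [CharZero k] (m S : ℕ)
    (P : ABP (LaurentSeries k) (Fin m × Fin m) S) (s t : Fin S)
    (R : MvPolynomial (Fin m × Fin m) k⟦X⟧)
    (h : P.computed s t =
      MvPolynomial.map (algebraMap k⟦X⟧ (LaurentSeries k))
        ((Matrix.of fun i j => MvPolynomial.X (i, j)).permanent +
          MvPolynomial.C PowerSeries.X * R)) :
    m ^ 3 ≤ 2 * 10 ^ 12 * (P.size + 1) := by
  classical
  obtain ⟨n, A0, A1, hn, hdet⟩ := Pool.Agent.Work.MP_499dc6_lc.Abp.exists_det P.c0 P.c1 s t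
    (Finset.univ.filter fun u => ∃ v e, u < v ∧ P.c1 u v e ≠ 0)
    (fun u v e huv hne => Finset.mem_filter.2 ⟨Finset.mem_univ _, v, e, huv, hne⟩)
  have hsize : (Finset.univ.filter fun u => ∃ v e, u < v ∧ P.c1 u v e ≠ 0).card = P.size := by
    rw [ABP.size, ← Set.ncard_coe_finset]
    congr 1
    ext u
    simp
  have hb := Pool.Agent.Work.MP_104cea_lc.Kept.CubicBorderDc.result k m n
    ⟨A0, fun i j => A1 (i, j), R, by
      rw [← h, ABP.computed, ← Fintype.sum_prod_type'
        (f := fun i j => (MvPolynomial.X (i, j) :
        MvPolynomial (Fin m × Fin m) (LaurentSeries k)) • (A1 (i, j)).map MvPolynomial.C)]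
      exact hdet⟩
  refine hb.trans (Nat.mul_le_mul_left _ ?_)
  rw [hsize] at hn
  exact hn

end Pool.Agent.Work.MP_499dc6_lc.Kept.BranchingPrograms
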