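import Mathlib
import Pool.Agent.Work.MP_499dc6_lc.CD3.Main

/-!
# An exponential lower bound for constant depth circuits computing the permanent

Over every field of characteristic zero, circuits of product depth `Δ` with unbounded fan-in that
compute the `M × M` permanent, exactly or in the border sense, need at least
`exp (M ^ (1 / (33 * 81 ^ Δ)) / 10 ^ 4 - e - r) - 1` gates, where polynomials of degree at most `e`
are free inputs, products may have any number of factors with any exponents, and in addition every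
gate may be an arbitrary polynomial in any number of earlier gates whose monomials involve at most
`r` gates each, for example an arbitrary polynomial of degree at most `r` in all earlier gates.
-/

namespace Pool.Agent.Work.MP_499dc6_lc.Kept.ConstantDepth

open MvPolynomial

open scoped PowerSeries

/-- `F 0, ..., F (s - 1)` are the polynomials computed by the `s` gates (in this order) of a
circuit of depth at most `Δ` with parameters `e` and `r`. The numbers `d i ≤ Δ` are the levels of
the gates. Every gate is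
* a polynomial of degree at most `e` (a free input) plus a linear combination of any number of
  earlier gates of the same or a lower level, or
* a product of powers of any number of earlier gates of lower level, or
* an arbitrary polynomial `Q` in any number of earlier gates of lower level such that every
  monomial of `Q` involves at most `r` of these gates. -/
def IsCircuit {K σ : Type} [Field K] {s : ℕ} (Δ e r : ℕ) (F : Fin s → MvPolynomial σ K) : Prop :=
  ∃ d : Fin s → ℕ, (∀ i, d i ≤ Δ) ∧ ∀ i,
    (∃ (l : MvPolynomial σ K) (c : Fin s → K), l.totalDegree ≤ e ∧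
      (∀ j, c j ≠ 0 → j < i ∧ d j ≤ d i) ∧ F i = l + ∑ j, C (c j) * F j) ∨
    (∃ k : Fin s → ℕ, (∀ j, k j ≠ 0 → j < i ∧ d j < d i) ∧ F i = ∏ j, F j ^ k j) ∨
    (∃ Q : MvPolynomial (Fin s) K, (∀ m ∈ Q.support, m.support.card ≤ r ∧
      ∀ j ∈ m.support, j < i ∧ d j < d i) ∧ F i = aeval F Q)

/-- Let `k` be a field of characteristic zero. If some gate of a circuit over `k((ε))` with `s`
gates, of depth at most `Δ` and with parameters `e` and `r`, computes `perm_M + ε R` with a
polynomial `R` over `k[[ε]]`, then `s + 1 ≥ exp (M ^ (1 / (33 * 81 ^ Δ)) / 10 ^ 4 - e - r)`. -/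
theorem result (k : Type) [Field k] [CharZero k] (M Δ s e r : ℕ)
    (F : Fin s → MvPolynomial (Fin M × Fin M) (LaurentSeries k)) (hF : IsCircuit Δ e r F)
    (i : Fin s) (R : MvPolynomial (Fin M × Fin M) k⟦X⟧)
    (hi : F i = MvPolynomial.map (algebraMap k⟦X⟧ (LaurentSeries k))
      ((Matrix.of fun i j => MvPolynomial.X (i, j)).permanent +
        MvPolynomial.C PowerSeries.X * R)) :
    Real.exp ((M : ℝ) ^ ((1 : ℝ) / (33 * 81 ^ Δ)) / 10 ^ 4 - e - r) ≤ s + 1 := by
  obtain ⟨d, hd, hck⟩ := hF
  have hs : 1 ≤ s := by have := i.2; omega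
  have h := Work.MP_499dc6_lc.CD3.main k M Δ s e r hs F d R hck hd i hi
  have hlog : 0 ≤ Real.log ((s : ℝ) + 1) := Real.log_nonneg (by
    have : (0 : ℝ) ≤ s := by positivity
    linarith)
  have hX : (0 : ℝ) ≤ 10 ^ 4 * (Real.log (s + 1) + e + r) := by positivity
  have h2 : (M : ℝ) ^ ((1 : ℝ) / (33 * 81 ^ Δ)) ≤ 10 ^ 4 * (Real.log (s + 1) + e + r) := by
    have h3 : ((10 ^ 4 * (Real.log ((s : ℝ) + 1) + e + r)) ^ (33 * 81 ^ Δ)) ^
        ((1 : ℝ) / (33 * 81 ^ Δ)) = 10 ^ 4 * (Real.log (s + 1) + e + r) := by
      rw [← Real.rpow_natCast, ← Real.rpow_mul hX]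
      have : (((33 * 81 ^ Δ : ℕ) : ℝ)) * (1 / (33 * 81 ^ Δ)) = 1 := by
        push_cast
        field_simp
      rw [this, Real.rpow_one]
    rw [← h3]
    exact Real.rpow_le_rpow (by positivity) h (by positivity)
  have h4 : (M : ℝ) ^ ((1 : ℝ) / (33 * 81 ^ Δ)) / 10 ^ 4 - e - r ≤ Real.log (s + 1) := by
    have : (M : ℝ) ^ ((1 : ℝ) / (33 * 81 ^ Δ)) / 10 ^ 4 ≤ Real.log (s + 1) + e + r := by
      rw [div_le_iff₀ (by norm_num)]
      linarith
    linarith
  calc Real.exp ((M : ℝ) ^ ((1 : ℝ) / (33 * 81 ^ Δ)) / 10 ^ 4 - e - r)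
      ≤ Real.exp (Real.log (s + 1)) := Real.exp_le_exp.mpr h4
    _ = s + 1 := Real.exp_log (by positivity)

end Pool.Agent.Work.MP_499dc6_lc.Kept.ConstantDepth
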