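import Mathlib
import Pool.Agent.Work.MP_499dc6_lc.D4.Final

/-!
# Depth three and depth four circuits of formal degree up to `m ^ (3 - ε)` for the permanent

`BorderProdSum k m D t e r` says that the `m × m` permanent is a border sum of `r` terms
`q * Q_1 * ... * Q_D`, where the `Q_j` are arbitrary (not necessarily homogeneous) polynomials of
degree at most `t` in the `m ^ 2` variables and `q` is a polynomial of degree at most `e`. With
`x = t D / m ≥ 1` we prove `3 r ≥ exp (c m / ((1 + log x) ^ 2 (t + √ x)))` for all
`e ≤ c m / (1 + log x) ^ 2`, over every field of characteristic zero.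
-/

namespace Pool.Agent.Work.MP_499dc6_lc.Kept.DepthFour

open scoped PowerSeries

/-- `perm_m` is a border sum of `r` terms `q * ∏ j, Q j` over `k`: over the field `k((ε))` of
Laurent series there are `r` polynomials `q s` of degree at most `e`, and for each `s` there are
`D` polynomials `Q s j` of degree at most `t`, all in the `m ^ 2` variables `X_ij`, and there is a
polynomial `R` over `k[[ε]]`, such that `∑ s, q s * ∏ j, Q s j = perm_m + ε R`.
(An exact representation over `k` is the case in which all coefficients are in `k` and `R = 0`;
sums of products of `D` polynomials of degree at most `t` are the case `q s = 1`.) -/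
def BorderProdSum (k : Type) [Field k] (m D t e r : ℕ) : Prop :=
  ∃ (q : Fin r → MvPolynomial (Fin m × Fin m) (LaurentSeries k))
    (Q : Fin r → Fin D → MvPolynomial (Fin m × Fin m) (LaurentSeries k))
    (R : MvPolynomial (Fin m × Fin m) k⟦X⟧),
    (∀ s, (q s).totalDegree ≤ e) ∧ (∀ s j, (Q s j).totalDegree ≤ t) ∧
    ∑ s, q s * ∏ j, Q s j =
      MvPolynomial.map (algebraMap k⟦X⟧ (LaurentSeries k))
        ((Matrix.of fun i j => MvPolynomial.X (i, j)).permanent +
          MvPolynomial.C PowerSeries.X * R)

/-- There is a constant `c > 0` such that over every field of characteristic zero, with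
`x = t D / m ≥ 1`, every border representation of the `m × m` permanent as a sum of `r` products
of `D` polynomials of degree at most `t` (each product may be multiplied by a polynomial of degree
at most `c m / (1 + log x) ^ 2`) has `3 r ≥ exp (c m / ((1 + log x) ^ 2 (t + √ x)))`. -/
theorem result : ∃ c : ℝ, 0 < c ∧ ∀ (k : Type) [Field k] [CharZero k] (m D t e r : ℕ),
    1 ≤ m → 1 ≤ t → m ≤ t * D → (e : ℝ) ≤ c * m / (1 + Real.log (t * D / m)) ^ 2 →
    BorderProdSum k m D t e r →
    Real.exp (c * (m / ((1 + Real.log (t * D / m)) ^ 2 * (t + √(t * D / m))))) ≤ 3 * r :=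
  Work.MP_499dc6_lc.D4.final

end Pool.Agent.Work.MP_499dc6_lc.Kept.DepthFour
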