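import Mathlib
import Pool.Agent.Work.MP_499dc6_lc.Fib.TrE

/-!
# Depth three circuits computing the permanent: top fan-in against product fan-in

Let `perm_N` be a sum of `S` terms, where each term is an arbitrary polynomial in `p` products,
each product has `D` factors, and each factor is an arbitrary polynomial in `r` affine forms. Then
`(log S + p log (2 + N / p)) (log D + r) ≥ N / (2 * 10 ^ 6)`. There is no restriction on degrees, and
approximative (border) computation is allowed. Depth three circuits are the case `p = r = 1` with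
powers of affine forms as factors: `(log S + log (N + 2)) (log D + 1) ≥ N / (2 * 10 ^ 6)`.
-/

namespace Pool.Agent.Work.MP_499dc6_lc.Kept.DepthThreeP

open MvPolynomial

open scoped PowerSeries

/-- Let `k` be a field of characteristic zero and let `perm_N + ε R`, `R` over `k[[ε]]`, be
`∑ i, Q_i (P_i1, ..., P_ip)` over `k((ε))`, where `Q_i`, `i < S`, are polynomials and
`P_ib = ∏ j < D, F_ibj (l_ibj1, ..., l_ibjr)` with polynomials `F_ibj` and affine forms `l_ibja`.
Then `(log S + p log (2 + N / p)) (log D + r) ≥ N / (2 * 10 ^ 6)`. -/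
theorem result (k : Type) [Field k] [CharZero k] (N S p D r : ℕ) (hp : 1 ≤ p) (hD : 1 ≤ D)
    (hr : 1 ≤ r) (Q : Fin S → MvPolynomial (Fin p) (LaurentSeries k))
    (F : Fin S → Fin p → Fin D → MvPolynomial (Fin r) (LaurentSeries k))
    (l : Fin S → Fin p → Fin D → Fin r → MvPolynomial (Fin N × Fin N) (LaurentSeries k))
    (hl : ∀ i b j a, (l i b j a).totalDegree ≤ 1)
    (R : MvPolynomial (Fin N × Fin N) k⟦X⟧)
    (h : ∑ i, aeval (fun b => ∏ j, aeval (l i b j) (F i b j)) (Q i) =
      MvPolynomial.map (algebraMap k⟦X⟧ (LaurentSeries k))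
        ((Matrix.of fun i j => MvPolynomial.X (i, j)).permanent +
          MvPolynomial.C PowerSeries.X * R)) :
    (N : ℝ) / (2 * 10 ^ 6) ≤
      (Real.log S + p * Real.log (2 + N / p)) * (Real.log D + r) :=
  Work.MP_499dc6_lc.Fib.tradeoff k N S p D r Q F l hl R h hp hD hr

end Pool.Agent.Work.MP_499dc6_lc.Kept.DepthThreeP
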