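import Pool.Agent.Work.MP_499dc6_lc.FZ.Final

/-!
# MP_499dc6_lc (VP versus VNP): the permanent in circuits with little or local reuse, and depth

Circuits (`Circuit`, `Circuit.Computes`, `varInputs`, `fanOut`, `numVars`, `depth`) are defined in
`Pool.Agent.Work.MP_499dc6_lc.FZ.Defs`: sequences of gates of fan-in two with the operations
`+`, `-`, `*`, `/`, whose inputs are variables, constants or earlier gates.
-/

set_option autoImplicit false

open scoped PowerSeries

open Pool.Agent.Work.MP_499dc6_lc.FZ

namespace Pool.Agent.Results.MP_499dc6_lc.FormulaSize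

/-- The circuit `Q` with constants in the field `K((ε))` computes the polynomial `perm_n + ε R` for
a polynomial `R` over `K[[ε]]`. (Exact computation over `K` is the case of constants in `K` and
`R = 0`.) -/
def ApproximatesPerm {K : Type*} [Field K] {n : ℕ}
    (Q : Circuit (LaurentSeries K) (Fin n × Fin n)) : Prop :=
  ∃ R : MvPolynomial (Fin n × Fin n) K⟦X⟧,
    Q.Computes (MvPolynomial.map (algebraMap K⟦X⟧ (LaurentSeries K))
      ((Matrix.of fun i j => MvPolynomial.X (i, j)).permanent +
        MvPolynomial.C PowerSeries.X * R))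

/-- Let `n ≥ 70`, `L = ⌈log₂ n⌉`, and let `Q` be a circuit that computes or approximates the
`n × n` permanent over a field of characteristic zero.
(1) `n ^ 4` is at most `32 L` times the number of gate inputs that are variables plus `16` times
the sum, over the gates that are used more than once, of the number of additional uses times
`min (2 L v) (n ^ 2)`, where `v` is the number of variables that the gate reads.
(2) If every gate that is used more than once reads at most `k` variables, then the circuit has at
least `n ^ 4 / (64 L k)` gates.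
(3) The depth `D` of every circuit satisfies `n ^ 4 ≤ 32 L 2 ^ D`. -/
theorem result {K : Type*} [Field K] [CharZero K] {n : ℕ} (hn : 70 ≤ n)
    (Q : Circuit (LaurentSeries K) (Fin n × Fin n)) (hQ : ApproximatesPerm Q) :
    (n ^ 4 ≤ 32 * Nat.clog 2 n * Q.varInputs +
      16 * ∑ j, (Q.fanOut j - 1) * min (2 * Nat.clog 2 n * Q.numVars j) (n ^ 2)) ∧
    (∀ k, 1 ≤ k → (∀ j, 2 ≤ Q.fanOut j → Q.numVars j ≤ k) →
      n ^ 4 ≤ 64 * Nat.clog 2 n * k * Q.size) ∧
    n ^ 4 ≤ 32 * Nat.clog 2 n * 2 ^ Q.depth := by
  obtain ⟨R, hR⟩ := hQ
  exact ⟨circuit_bound_clog hn Q R hR, circuit_local_clog hn Q R hR, circuit_depth_clog hn Q R hR⟩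

end Pool.Agent.Results.MP_499dc6_lc.FormulaSize
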