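import Mathlib
import Pool.Agent.Work.MP_499dc6_lc.TSD.All

/-!
# The permanent is not a small sum of determinants of matrices of low degree polynomials

`BorderPDetSum k m n t e r` says that the `m × m` permanent is a border sum of `r` terms
`q * det A`, where `A` is an `n × n` matrix whose entries are arbitrary polynomials of degree at
most `t` in the `m ^ 2` variables and `q` is a polynomial of degree at most `e`. With
`x = t n / m ≥ 1` we prove `3 r ≥ exp (c m / ((1 + log x) ^ 2 (t + x (1 + log x))))`.
-/

namespace Pool.Agent.Work.MP_499dc6_lc.Kept.PolynomialDeterminants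

open scoped PowerSeries

/-- `perm_m` is a border sum of `r` polynomials `q * det A` over `k`: over the field `k((ε))` of
Laurent series there are `r` polynomials `q s` of degree at most `e`, `r` matrices `A s` of size
`n × n` whose entries are polynomials of degree at most `t` in the `m ^ 2` variables, and there is a
polynomial `R` over `k[[ε]]`, such that `∑ s, q s * det (A s) = perm_m + ε R`. (An exact
representation is the case in which all coefficients are in `k` and `R = 0`.) -/
def BorderPDetSum (k : Type) [Field k] (m n t e r : ℕ) : Prop :=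
  ∃ (q : Fin r → MvPolynomial (Fin m × Fin m) (LaurentSeries k))
    (A : Fin r → Matrix (Fin n) (Fin n) (MvPolynomial (Fin m × Fin m) (LaurentSeries k)))
    (R : MvPolynomial (Fin m × Fin m) k⟦X⟧),
    (∀ s, (q s).totalDegree ≤ e) ∧ (∀ s i j, (A s i j).totalDegree ≤ t) ∧
    ∑ s, q s * (A s).det =
      MvPolynomial.map (algebraMap k⟦X⟧ (LaurentSeries k))
        ((Matrix.of fun i j => MvPolynomial.X (i, j)).permanent +
          MvPolynomial.C PowerSeries.X * R)

/-- There is a constant `c > 0` such that over every field of characteristic zero, for all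
`t ≥ 1`, `1 ≤ m ≤ t n`, `x = t n / m` and `e ≤ c m / (1 + log x) ^ 2`: if the `m × m` permanent is
a border sum of `r` terms `q * det A`, with `A` an `n × n` matrix of polynomials of degree at most
`t` and `q` of degree at most `e`, then
`3 r ≥ exp (c m / ((1 + log x) ^ 2 (t + x (1 + log x))))`. -/
theorem result : ∃ c : ℝ, 0 < c ∧ ∀ (k : Type) [Field k] [CharZero k] (m n t e r : ℕ) (x : ℝ),
    1 ≤ m → 1 ≤ t → m ≤ t * n → x = t * n / m → (e : ℝ) ≤ c * m / (1 + Real.log x) ^ 2 →
    BorderPDetSum k m n t e r →
    Real.exp (c * m / ((1 + Real.log x) ^ 2 * (t + x * (1 + Real.log x)))) ≤ 3 * r := by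
  obtain ⟨c, hc, h⟩ := Work.MP_499dc6_lc.TSD.final
  refine ⟨c, hc, ?_⟩
  intro k _ _ m n t e r x hm ht hmn hx he hb
  subst hx
  have := h k m n t e r hm ht hmn he hb
  rwa [Work.MP_499dc6_lc.TSD.expon, mul_div_assoc'] at this

end Pool.Agent.Work.MP_499dc6_lc.Kept.PolynomialDeterminants
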