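import Mathlib
import Pool.Agent.Work.MP_499dc6_lc.D4.Unify

/-!
# The permanent is not a small sum of products of determinants

`BorderProdDetSum k m D ν t e r` says that the `m × m` permanent is a border sum of `r` terms
`q * det (A_1) * ... * det (A_D)`, where the `A_j` are `ν × ν` matrices whose entries are arbitrary
polynomials of degree at most `t` in the `m ^ 2` variables and `q` is a polynomial of degree at
most `e`. With `x = t ν D / m ≥ 1` (formal degree divided by `m`) we prove
`3 r ≥ exp (c m / ((1 + log x) ^ 2 min (t + x (1 + log x)) (t ν + √x)))` for all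
`e ≤ c m / (1 + log x) ^ 2`, over every field of characteristic zero.

* `D = 1`: sums of determinants of `ν × ν` matrices of polynomials of degree at most `t`;
* `ν = 1`: sums of products of `D` polynomials of degree at most `t` (depth three for `t = 1`,
  depth four), the bound is exponential for `t ≤ m ^ (1 - ε)` and formal degree
  `t D ≤ m ^ (3 - ε)`.
-/

namespace Pool.Agent.Results.MP_499dc6_lc.ProductsOfDeterminants

open scoped PowerSeries

/-- `perm_m` is a border sum of `r` terms `q * ∏ j, det (A j)` over `k`: over the field `k((ε))` of
Laurent series there are `r` polynomials `q s` of degree at most `e`, and for each `s` there are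
`D` matrices `A s j` of size `ν × ν` whose entries are polynomials of degree at most `t`, all in
the `m ^ 2` variables `X_ij`, and there is a polynomial `R` over `k[[ε]]`, such that
`∑ s, q s * ∏ j, det (A s j) = perm_m + ε R`.
(An exact representation over `k` is the case in which all coefficients are in `k` and `R = 0`.) -/
def BorderProdDetSum (k : Type) [Field k] (m D ν t e r : ℕ) : Prop :=
  ∃ (q : Fin r → MvPolynomial (Fin m × Fin m) (LaurentSeries k))
    (A : Fin r → Fin D →
      Matrix (Fin ν) (Fin ν) (MvPolynomial (Fin m × Fin m) (LaurentSeries k)))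
    (R : MvPolynomial (Fin m × Fin m) k⟦X⟧),
    (∀ s, (q s).totalDegree ≤ e) ∧ (∀ s j a b, (A s j a b).totalDegree ≤ t) ∧
    ∑ s, q s * ∏ j, (A s j).det =
      MvPolynomial.map (algebraMap k⟦X⟧ (LaurentSeries k))
        ((Matrix.of fun i j => MvPolynomial.X (i, j)).permanent +
          MvPolynomial.C PowerSeries.X * R)

/-- There is a constant `c > 0` such that over every field of characteristic zero, with
`x = t ν D / m ≥ 1`, every border representation of the `m × m` permanent as a sum of `r` terms
`q * det (A_1) * ... * det (A_D)`, with `ν × ν` matrices `A_j` of polynomials of degree at most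
`t` and with `q` of degree at most `c m / (1 + log x) ^ 2`, has
`3 r ≥ exp (c m / ((1 + log x) ^ 2 min (t + x (1 + log x)) (t ν + √x)))`. -/
theorem result : ∃ c : ℝ, 0 < c ∧ ∀ (k : Type) [Field k] [CharZero k] (m D ν t e r : ℕ) (x : ℝ),
    1 ≤ m → x = t * ν * D / m → 1 ≤ x → (e : ℝ) ≤ c * m / (1 + Real.log x) ^ 2 →
    BorderProdDetSum k m D ν t e r →
    Real.exp (c * m / ((1 + Real.log x) ^ 2 *
      min (t + x * (1 + Real.log x)) (t * ν + √x))) ≤ 3 * r :=
  Work.MP_499dc6_lc.D4.unify

end Pool.Agent.Results.MP_499dc6_lc.ProductsOfDeterminants
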