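import Pool.Agent.Work.MP_499dc6_lc.H21DetFinal

set_option autoImplicit false

open Pool.Agent.Work.MP_499dc6_lc.H21

namespace Pool.Agent.Work.MP_499dc6_lc.Kept.ReadKDeterminant

/-- Over a field of characteristic zero, if the `n × n` permanent is the determinant of an affine
matrix pencil `A0 + ∑ e, x_e A_e` of any size, then the ranks of the coefficient matrices `A_e`
sum to at least `n ^ 3 / (4 * ⌈log₂ n⌉)` (`n ≥ 70`). -/
theorem result {K : Type*} [Field K] [CharZero K] {n : ℕ} (hn : 70 ≤ n)
    {m : Type*} [Fintype m] [DecidableEq m]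
    (A0 : Matrix m m K) (A : Fin n × Fin n → Matrix m m K)
    (hA : detPencil A0 A = permPoly K n) :
    n ^ 3 ≤ 4 * Nat.clog 2 n * ∑ e, (A e).rank :=
  det_bound_clog hn A0 A hA

end Pool.Agent.Work.MP_499dc6_lc.Kept.ReadKDeterminant
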