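import Pool.Agent.Work.MP_499dc6_lc.SizeCancel.Main

set_option autoImplicit false

open Filter
open scoped Nat

namespace Pool.Agent.Work.MP_499dc6_lc.Kept.SizeVsCancellation

open Pool.Agent.Work.MP_499dc6_lc.SizeCancel

/-- Size versus cancellation. For all large `n`, every arithmetic circuit over `ℂ` that computes the
permanent `perm_n` (or any polynomial in which all `n!` permutation monomials have nonzero
coefficients) has at least `2^(n/200)` gates, or its output gate has at least `2^(n/100) * n!`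
formal monomials. -/
theorem result : ∀ᶠ n : ℕ in atTop, ∀ (f : MvPolynomial (Fin n × Fin n) ℂ),
    (∀ σ : Equiv.Perm (Fin n), f.coeff (permMon σ) ≠ 0) →
    ∀ (s : ℕ) (g : Fin s → MvPolynomial (Fin n × Fin n) ℂ)
      (F : Fin s → Finset ((Fin n × Fin n) →₀ ℕ)), IsCircuit g F → ∀ o : Fin s, g o = f →
      (2 : ℝ) ^ ((n : ℝ) / 200) ≤ s ∨
      (2 : ℝ) ^ ((n : ℝ) / 100) * (n ! : ℝ) ≤ ((F o).card : ℝ) :=
  main

end Pool.Agent.Work.MP_499dc6_lc.Kept.SizeVsCancellation
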