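import Mathlib
import Pool.Agent.Work.MP_499dc6_lc.SN.All

/-!
# Circuits of bounded Strahler number for the permanent

A circuit of size `S` has `S` gates; the gate `j` computes an arbitrary polynomial of degree at most
`2` in the variables and in the earlier gates. So linear combinations are free, and a gate may
add up any number of products of two earlier gates or variables.

Its Strahler number is at most `t` if the gates have levels `1, ..., t` (the variables have the
level `0`) such that a product of two factors of the level `a` has a level larger than `a`, while
a product of factors of different levels may have the larger one of the two levels: every monomial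
of the gate polynomial of `j` contains only gates of levels `≤ level j`, and at most one factor of
the level of `j`. Skew circuits and algebraic branching programs are the case `t = 1` (then `S` is
the number of vertices), and every circuit has a finite Strahler number (`t ≤ S`).
-/

namespace Pool.Agent.Results.MP_499dc6_lc.StrahlerNumber

open MvPolynomial
open scoped PowerSeries

/-- The polynomials `f 0, ..., f (S - 1)` are those of the gates of a circuit of size `S` and of
Strahler number at most `t` over the field `K` in the variables `x_v`, `v : V`: gate `j` computes
`f j = Q j (x, f)`, where the gate polynomial `Q j` in the variables `Sum.inl v` and the gates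
`Sum.inr i` has degree at most `2` and contains only earlier gates `i < j` of levels
`≤ level j`, and every monomial of `Q j` contains at most one factor of the level of `j`. -/
def IsCircuit {K V : Type} [Field K] {S : ℕ} (t : ℕ) (f : Fin S → MvPolynomial V K) : Prop :=
  ∃ (level : Fin S → ℕ) (Q : Fin S → MvPolynomial (V ⊕ Fin S) K), ∀ j,
    1 ≤ level j ∧ level j ≤ t ∧ (Q j).totalDegree ≤ 2 ∧
    (∀ μ ∈ (Q j).support, (∀ i, μ (Sum.inr i) ≠ 0 → i < j ∧ level i ≤ level j) ∧
      ∑ i with level i = level j, μ (Sum.inr i) ≤ 1) ∧
    f j = aeval (Sum.elim X f) (Q j)

/-- Let `k` be a field of characteristic zero. If a circuit of size `S` and of Strahler number at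
most `t` over `k((ε))` computes `perm_m + ε R` with a polynomial `R` over `k[[ε]]`, then
`m ≤ 250 (1 + 160 S / (t m ^ 2)) ^ t`. -/
theorem result (k : Type) [Field k] [CharZero k] (m t S : ℕ) (hm : 1 ≤ m) (ht : 1 ≤ t)
    (f : Fin S → MvPolynomial (Fin m × Fin m) (LaurentSeries k)) (hf : IsCircuit t f)
    (s : Fin S) (R : MvPolynomial (Fin m × Fin m) k⟦X⟧)
    (hs : f s = MvPolynomial.map (algebraMap k⟦X⟧ (LaurentSeries k))
      ((Matrix.of fun i j => X (i, j)).permanent + C PowerSeries.X * R)) :
    (m : ℝ) ≤ 250 * (1 + 160 * S / (t * (m : ℝ) ^ 2)) ^ t := by
  obtain ⟨level, Q, h⟩ := hf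
  exact Pool.Agent.Work.MP_499dc6_lc.SN.sn_all k m t S hm ht level Q
    (fun j => ⟨(h j).1, (h j).2.1, (h j).2.2.1, (h j).2.2.2.1⟩) f (fun j => (h j).2.2.2.2) s R hs

end Pool.Agent.Results.MP_499dc6_lc.StrahlerNumber
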