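import Pool.Agent.Work.MP_499dc6_lc.Deg.GadgetOk

set_option autoImplicit false

open Filter MvPolynomial Topology

namespace Pool.Agent.Results.MP_499dc6_lc.SuperlinearCircuits

open Pool.Agent.Work.MP_499dc6_lc.Deg

/-- Superlinear lower bound for the permanent in the unrestricted arithmetic circuit model over
`ℂ`, also for approximate (border) computation. For all large `n`: if the polynomials `f j` tend
coefficientwise to the permanent `perm_n` of the `n × n` matrix of variables, and each `f j` is
computed by an arithmetic circuit (gates: constants, variables, linear combinations of two
earlier gates, and products of two earlier gates) with at most `S` multiplication gates, then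
`S` is at least `n^2 log n / 1700`. The constant sequence gives the bound for circuits which
compute `perm_n` exactly. -/
theorem result : ∀ᶠ n : ℕ in atTop,
    ∀ (S : ℕ) (f : ℕ → MvPolynomial (Fin n × Fin n) ℂ), (∀ j, ComputedWith (f j) S) →
      (∀ m, Tendsto (fun j => coeff m (f j)) atTop
        (𝓝 (coeff m (Matrix.permanent (Matrix.of fun i j => X (i, j)))))) →
      (n : ℝ) ^ 2 * Real.log n / 1700 ≤ S :=
  border_main

end Pool.Agent.Results.MP_499dc6_lc.SuperlinearCircuits
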