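import Pool.Agent.Work.MP_499dc6_lc.Bd.B06

/-!
# Every arithmetic circuit for the permanent breaks exponentially many local symmetries

The rows and the columns of the matrix are indexed by `N` disjoint triples and further indices `W`.
A local permutation permutes the elements of each triple, simultaneously for rows and columns.  The
definitions are in `Pool/Agent/Work/MP_499dc6_lc/H29Defs.lean`.

Consider any arithmetic circuit (of any size) whose gates compute linear combinations of any number
of earlier polynomials, or arbitrary polynomials in at most `d` earlier polynomials (for example
products).  If some gate computes the permanent, even only approximately in the sense of border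
complexity, then some gate computes a polynomial with at least `2 ^ (N / (120 d))` different images
under the local permutations.
-/

namespace Pool.Agent.Work.MP_499dc6_lc.Kept.SymmetryBreaking

open Pool.Agent.LocalArith MvPolynomial

theorem result (N d s : ℕ) (W : Type) [Fintype W] [DecidableEq W] (hd : 0 < d)
    (F : Fin s → MvPolynomial (Idx N W × Idx N W) (LaurentSeries ℂ)) (hF : IsCircuit d F)
    (out : Fin s) (R : MvPolynomial (Idx N W × Idx N W) (PowerSeries ℂ))
    (hout : F out = map (algebraMap (PowerSeries ℂ) (LaurentSeries ℂ))
      (permPoly (Idx N W) (PowerSeries ℂ) + C PowerSeries.X * R)) :
    ∃ g, 2 ^ (N / (120 * d)) ≤ (images (F g)).ncard :=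
  border hd hF out R hout

end Pool.Agent.Work.MP_499dc6_lc.Kept.SymmetryBreaking
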